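import Mathlib

/-!
# Isosceles triangles in the grid: a linear lower bound

`f N`, the largest size of a subset of `{1, …, N}²` without isosceles triangles (degenerate ones
included), is at least `c N` with `c = 2 ^ (-3781)`.

Proof, by recursion over `N`.  Let `p` be a prime between `N ^ (4/5)` and `N`, `M = N / p`, and let
`L = {(x, y) : y ≡ c x mod p}` be a lattice without nonzero vectors in `[-2 M, 2 M]²` and with
`c² ≢ -1` (`exists_slope`).  If `u`, `w` are vectors of `L` of equal length with coordinates smaller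
than `p M`, then `u - w` and `u + w` are orthogonal, and it follows that `u = ± w` or that `u`, `w`
have coordinates divisible by `p` (`lattice_key`).  Take a coset of `L`; it meets each class
`x ≡ ρ mod p` in a translate of `p ℤ²`, and in this class put a copy of a set `E (s ρ)` from the
recursion for `M`, which is contained in a class `y - a x ≡ s ρ mod q`.  Then isosceles triangles
inside a class are excluded by recursion, and the others are degenerate: `Q + R = 2 P`.  The class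
`s ρ` is chosen such that `y - a x` is congruent modulo `q` to a label of `ρ`, where the labels are
smaller than `q / 2` and have the property that `ρ' + ρ'' ≡ 2 ρ mod p` and
`lab ρ' + lab ρ'' = 2 lab ρ` imply `ρ = ρ' = ρ''` (`lab_key`; the label consists of the halves of
the digits of `ρ` in base `2 ^ 60` and of the sum of the squares of the digits, as in Behrend's
construction, and it has about `4 log p / 60` digits in base `2`).  So the new set has
`∑ |E (s ρ)| ≥ p c M` points, and no constant is lost in the step (`step`, `inv_step`).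
-/

namespace Pool.Agent.Results.MP_fcf645_co.LinearLower

open Finset

/-- The grid `{1, …, N}²`. -/
noncomputable def grid (N : ℕ) : Finset (ℤ × ℤ) :=
  Finset.Icc 1 (N : ℤ) ×ˢ Finset.Icc 1 (N : ℤ)

/-- The Euclidean distance of two points with integer coordinates. -/
noncomputable def eucl (a b : ℤ × ℤ) : ℝ :=
  Real.sqrt (((a.1 : ℝ) - b.1) ^ 2 + ((a.2 : ℝ) - b.2) ^ 2)

/-- `A` contains no isosceles triangle (degenerate ones included): there are no pairwise different
points `a`, `b`, `c` of `A` with `|a - b| = |a - c|`. -/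
def IsoscelesFree (A : Finset (ℤ × ℤ)) : Prop :=
  ∀ a ∈ A, ∀ b ∈ A, ∀ c ∈ A, a ≠ b → a ≠ c → b ≠ c → eucl a b ≠ eucl a c

open Classical in
/-- The largest size of a subset of the grid which contains no isosceles triangle. -/
noncomputable def f (N : ℕ) : ℕ :=
  ((grid N).powerset.filter (fun A => IsoscelesFree A)).sup Finset.card

/-! ## Orthogonal vectors in a lattice -/

private theorem dcongr {p x y : ℤ} (h : p ∣ x) (e : x = y) : p ∣ y := e ▸ h

private theorem dvd_of_dvd_two_mul {p : ℕ} (hp : p.Prime) (hp2 : p ≠ 2) {x : ℤ}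
    (h : (p : ℤ) ∣ 2 * x) : (p : ℤ) ∣ x := by
  rcases (Nat.prime_iff_prime_int.1 hp).dvd_or_dvd h with h | h
  · exfalso
    have h2 : p ∣ 2 := by exact_mod_cast h
    exact hp2 ((Nat.prime_dvd_prime_iff_eq hp Nat.prime_two).1 h2)
  · exact h

private theorem lt_abs_mul {p M : ℕ} (hp : p.Prime) {x h : ℤ} (hh : h ≠ 0) (hd : (p : ℤ) ∣ h)
    (hx : 2 * (M : ℤ) < |x|) : 2 * ((p : ℤ) * M) < |x * h| := by
  have h1 : (p : ℤ) ≤ |h| := Int.le_of_dvd (abs_pos.2 hh) ((dvd_abs _ _).2 hd)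
  have hp0 : (0 : ℤ) < p := by exact_mod_cast hp.pos
  rw [abs_mul]
  have hM : (0 : ℤ) ≤ M := by positivity
  nlinarith

private theorem lattice_key (p M : ℕ) (hp : p.Prime) (hp2 : p ≠ 2) (c : ℤ)
    (hc : ¬ (p : ℤ) ∣ c ^ 2 + 1)
    (hshort : ∀ x y : ℤ, |x| ≤ 2 * M → |y| ≤ 2 * M → (p : ℤ) ∣ y - c * x → x = 0 ∧ y = 0)
    (u1 u2 w1 w2 : ℤ) (hu : (p : ℤ) ∣ u2 - c * u1) (hw : (p : ℤ) ∣ w2 - c * w1)
    (bu1 : |u1| < p * M) (bu2 : |u2| < p * M) (bw1 : |w1| < p * M) (bw2 : |w2| < p * M)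
    (heq : u1 ^ 2 + u2 ^ 2 = w1 ^ 2 + w2 ^ 2) :
    (u1 = w1 ∧ u2 = w2) ∨ (u1 = -w1 ∧ u2 = -w2) ∨
      ((p : ℤ) ∣ u1 ∧ (p : ℤ) ∣ w1) := by
  have hpi : Prime (p : ℤ) := Nat.prime_iff_prime_int.1 hp
  by_cases ha : u1 - w1 = 0 ∧ u2 - w2 = 0
  · left; constructor <;> linarith [ha.1, ha.2]
  by_cases hb : u1 + w1 = 0 ∧ u2 + w2 = 0
  · right; left; constructor <;> linarith [hb.1, hb.2]
  right; right
  have hA : (p : ℤ) ∣ (u2 - w2) - c * (u1 - w1) := by
    exact dcongr (dvd_sub hu hw) (by ring)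
  have hB : (p : ℤ) ∣ (u2 + w2) - c * (u1 + w1) := by
    exact dcongr (dvd_add hu hw) (by ring)
  have hor : (u1 - w1) * (u1 + w1) + (u2 - w2) * (u2 + w2) = 0 := by linear_combination heq
  have ba1 : |u1 - w1| < 2 * (p * M) := by
    rw [abs_lt] at *; constructor <;> linarith [bu1.1, bu1.2, bw1.1, bw1.2]
  have ba2 : |u2 - w2| < 2 * (p * M) := by
    rw [abs_lt] at *; constructor <;> linarith [bu2.1, bu2.2, bw2.1, bw2.2]
  have bb1 : |u1 + w1| < 2 * (p * M) := by
    rw [abs_lt] at *; constructor <;> linarith [bu1.1, bu1.2, bw1.1, bw1.2]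
  have bb2 : |u2 + w2| < 2 * (p * M) := by
    rw [abs_lt] at *; constructor <;> linarith [bu2.1, bu2.2, bw2.1, bw2.2]
  have hcon : (p : ℤ) ∣ (u1 - w1) ∧ (p : ℤ) ∣ (u1 + w1) := by
    generalize u1 - w1 = a1 at *
    generalize u2 - w2 = a2 at *
    generalize u1 + w1 = b1 at *
    generalize u2 + w2 = b2 at *
    have hg : 0 < Int.gcd a1 a2 := by
      rw [Nat.pos_iff_ne_zero]; intro h0; exact ha (Int.gcd_eq_zero_iff.1 h0)
    obtain ⟨al, be, hco, h1, h2⟩ := Int.exists_gcd_one hg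
    set g : ℤ := (Int.gcd a1 a2 : ℤ) with hgdef
    have hg0 : g ≠ 0 := by rw [hgdef]; exact_mod_cast hg.ne'
    obtain ⟨s, t, hst⟩ := Int.isCoprime_iff_gcd_eq_one.2 hco
    have hor2 : al * b1 + be * b2 = 0 := by
      have : g * (al * b1 + be * b2) = 0 := by rw [h1, h2] at hor; linear_combination hor
      rcases mul_eq_zero.1 this with h | h
      · exact absurd h hg0
      · exact h
    set h : ℤ := s * b2 - t * b1 with hh
    have hb2 : b2 = al * h := by rw [hh]; linear_combination (-b2) * hst + t * hor2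
    have hb1 : b1 = -be * h := by rw [hh]; linear_combination (-b1) * hst + s * hor2
    have hh0 : h ≠ 0 := by
      intro h0; apply hb; rw [hb1, hb2, h0]; simp
    have hA' : (p : ℤ) ∣ g ∨ (p : ℤ) ∣ be - c * al := by
      apply hpi.dvd_or_dvd; exact dcongr hA (by rw [h2, h1]; ring)
    have hB' : (p : ℤ) ∣ h ∨ (p : ℤ) ∣ al + c * be := by
      apply hpi.dvd_or_dvd; exact dcongr hB (by rw [hb2, hb1]; ring)
    have hne : ¬ (al = 0 ∧ be = 0) := by
      rintro ⟨rfl, rfl⟩; simp at hst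
    rcases hA' with hA' | hA' <;> rcases hB' with hB' | hB'
    · exact ⟨by rw [h1]; exact Dvd.dvd.mul_left hA' _, by rw [hb1]; exact Dvd.dvd.mul_left hB' _⟩
    · exfalso
      have hn : ¬ (|-be| ≤ 2 * (M : ℤ) ∧ |al| ≤ 2 * (M : ℤ)) := by
        rintro ⟨q1, q2⟩
        have := hshort (-be) al q1 q2 (dcongr hB' (by ring))
        apply hne; exact ⟨this.2, by linarith [this.1]⟩
      rw [not_and_or, not_le, not_le, abs_neg] at hn
      rcases hn with hn | hn
      · have := lt_abs_mul hp hg0 hA' hn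
        rw [← h2] at this; linarith
      · have := lt_abs_mul hp hg0 hA' hn
        rw [← h1] at this; linarith
    · exfalso
      have hn : ¬ (|al| ≤ 2 * (M : ℤ) ∧ |be| ≤ 2 * (M : ℤ)) := by
        rintro ⟨q1, q2⟩
        exact hne (hshort al be q1 q2 hA')
      rw [not_and_or, not_le, not_le] at hn
      rcases hn with hn | hn
      · have := lt_abs_mul hp hh0 hB' hn
        rw [← hb2] at this; linarith
      · rw [← abs_neg] at hn
        have := lt_abs_mul hp hh0 hB' hn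
        rw [← hb1] at this; linarith
    · exfalso
      have h3 : (p : ℤ) ∣ (c ^ 2 + 1) * al := by
        exact dcongr (dvd_sub hB' (Dvd.dvd.mul_left hA' c)) (by ring)
      rcases hpi.dvd_or_dvd h3 with h3 | h3
      · exact hc h3
      · have h4 : (p : ℤ) ∣ be := by
          exact dcongr (dvd_add hA' (Dvd.dvd.mul_left h3 c)) (by ring)
        have : (p : ℤ) ∣ 1 := by
          rw [← hst]; exact dvd_add (Dvd.dvd.mul_left h3 s) (Dvd.dvd.mul_left h4 t)
        exact hpi.not_dvd_one this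
  constructor
  · apply dvd_of_dvd_two_mul hp hp2
    exact dcongr (dvd_add hcon.1 hcon.2) (by ring)
  · apply dvd_of_dvd_two_mul hp hp2
    exact dcongr (dvd_sub hcon.2 hcon.1) (by ring)


/-! ## A good slope modulo `p` -/

private theorem exists_slope (p M : ℕ) (hp : p.Prime) (hpM : (4 * M + 1) ^ 2 + 2 < p) :
    ∃ c : ℤ, ¬ (p : ℤ) ∣ c ^ 2 + 1 ∧
      ∀ x y : ℤ, |x| ≤ 2 * M → |y| ≤ 2 * M → (p : ℤ) ∣ y - c * x → x = 0 ∧ y = 0 := by
  classical
  have : Fact p.Prime := ⟨hp⟩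
  set I : Finset ℤ := Finset.Icc (-(2 * (M : ℤ))) (2 * M) with hI
  have hIc : I.card = 4 * M + 1 := by
    rw [hI, Int.card_Icc]; omega
  set B1 : Finset (ZMod p) := (I ×ˢ I).image (fun z => (z.2 : ZMod p) / (z.1 : ZMod p)) with hB1
  have hB1c : B1.card ≤ (4 * M + 1) ^ 2 := by
    refine le_trans Finset.card_image_le ?_
    rw [Finset.card_product, hIc]; exact le_of_eq (by ring)
  obtain ⟨B2, hB2c, hB2⟩ : ∃ B2 : Finset (ZMod p), B2.card ≤ 2 ∧
      ∀ c : ZMod p, c ^ 2 + 1 = 0 → c ∈ B2 := by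
    by_cases h : ∃ c : ZMod p, c ^ 2 + 1 = 0
    · obtain ⟨c0, hc0⟩ := h
      refine ⟨{c0, -c0}, Finset.card_le_two, ?_⟩
      intro c hc
      have h1 : (c - c0) * (c + c0) = 0 := by linear_combination hc - hc0
      rcases mul_eq_zero.1 h1 with h1 | h1
      · simp [sub_eq_zero.1 h1]
      · have : c = -c0 := by linear_combination h1
        simp [this]
    · exact ⟨∅, by simp, fun c hc => absurd ⟨c, hc⟩ h⟩
  have hcard : (B1 ∪ B2).card < (Finset.univ : Finset (ZMod p)).card := by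
    rw [Finset.card_univ, ZMod.card]
    calc (B1 ∪ B2).card ≤ B1.card + B2.card := Finset.card_union_le _ _
      _ ≤ (4 * M + 1) ^ 2 + 2 := add_le_add hB1c hB2c
      _ < p := hpM
  obtain ⟨c, -, hc⟩ := Finset.exists_mem_notMem_of_card_lt_card hcard
  rw [Finset.mem_union, not_or] at hc
  have hval : ((c.val : ℤ) : ZMod p) = c := by
    rw [Int.cast_natCast, ZMod.natCast_zmod_val]
  refine ⟨(c.val : ℤ), ?_, ?_⟩
  · intro hd
    apply hc.2
    apply hB2
    have := (ZMod.intCast_zmod_eq_zero_iff_dvd _ p).2 hd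
    rw [← hval]
    push_cast at this ⊢
    exact this
  · intro x y hx hy hd
    rw [abs_le] at hx hy
    have h4 : 4 * M + 1 < p := by nlinarith
    have hsmall : ∀ z : ℤ, -(2 * (M : ℤ)) ≤ z → z ≤ 2 * M → (p : ℤ) ∣ z → z = 0 := by
      intro z h1 h2 h3
      apply Int.eq_zero_of_abs_lt_dvd h3
      rw [abs_lt]; constructor <;> omega
    have hE : (y : ZMod p) = c * (x : ZMod p) := by
      have := (ZMod.intCast_zmod_eq_zero_iff_dvd _ p).2 hd
      push_cast at this
      rw [ZMod.natCast_zmod_val] at this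
      linear_combination this
    by_cases hx0 : (x : ZMod p) = 0
    · have h1 : x = 0 := hsmall x hx.1 hx.2 ((ZMod.intCast_zmod_eq_zero_iff_dvd _ p).1 hx0)
      refine ⟨h1, ?_⟩
      apply hsmall y hy.1 hy.2
      rw [hx0, mul_zero] at hE
      exact (ZMod.intCast_zmod_eq_zero_iff_dvd _ p).1 hE
    · exfalso
      apply hc.1
      rw [hB1, Finset.mem_image]
      refine ⟨(x, y), ?_, ?_⟩
      · rw [Finset.mem_product, hI]
        exact ⟨Finset.mem_Icc.2 hx, Finset.mem_Icc.2 hy⟩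
      · simp only
        rw [hE, mul_div_assoc, div_self hx0, mul_one]

/-! ## Labels without three term progressions -/

/-- The halves of the digits of `x` in base `2 ^ 60`, as a number in base `8`. -/
private def hd : ℕ → ℕ → ℕ
  | 0, _ => 0
  | n + 1, x => (x % 1152921504606846976) / 576460752303423488 +
      8 * hd n (x / 1152921504606846976)

/-- The sum of the squares of the digits. -/
private def sd : ℕ → ℕ → ℕ
  | 0, _ => 0
  | n + 1, x => (x % 1152921504606846976) ^ 2 + sd n (x / 1152921504606846976)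

private theorem hd_lt (n : ℕ) : ∀ x, hd n x < 8 ^ n := by
  induction n with
  | zero => intro x; simp [hd]
  | succ n ih =>
    intro x
    have h1 := ih (x / 1152921504606846976)
    rw [hd, pow_succ]
    omega

private theorem sd_le (n : ℕ) : ∀ x, sd n x ≤ n * 2 ^ 120 := by
  induction n with
  | zero => intro x; simp [sd]
  | succ n ih =>
    intro x
    have h1 := ih (x / 1152921504606846976)
    have h2 : x % 1152921504606846976 < 1152921504606846976 := Nat.mod_lt _ (by norm_num)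
    have h3 : (x % 1152921504606846976) ^ 2 ≤ 2 ^ 120 := by
      calc (x % 1152921504606846976) ^ 2 ≤ 1152921504606846976 ^ 2 :=
            Nat.pow_le_pow_left h2.le 2
        _ = 2 ^ 120 := by norm_num
    rw [sd, add_mul, one_mul]
    omega

private theorem label_key (n : ℕ) : ∀ x y z : ℕ, x < (2 ^ 60) ^ n → y < (2 ^ 60) ^ n →
    z < (2 ^ 60) ^ n → x + z = 2 * y → hd n x + hd n z = 2 * hd n y →
    2 * sd n y ≤ sd n x + sd n z ∧ (sd n x + sd n z = 2 * sd n y → x = z) := by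
  induction n with
  | zero =>
    intro x y z hx hy hz _ _
    simp only [pow_zero, Nat.lt_one_iff] at hx hy hz
    subst hx hy hz
    simp [sd]
  | succ n ih =>
    intro x y z hx hy hz hxyz hh
    simp only [hd, sd] at hh ⊢
    have e60 : (2 : ℕ) ^ 60 = 1152921504606846976 := by norm_num
    rw [pow_succ, e60] at hx hy hz
    rw [e60] at ih
    have hx' : x / 1152921504606846976 < 1152921504606846976 ^ n :=
      Nat.div_lt_of_lt_mul (by rw [mul_comm]; exact hx)
    have hy' : y / 1152921504606846976 < 1152921504606846976 ^ n :=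
      Nat.div_lt_of_lt_mul (by rw [mul_comm]; exact hy)
    have hz' : z / 1152921504606846976 < 1152921504606846976 ^ n :=
      Nat.div_lt_of_lt_mul (by rw [mul_comm]; exact hz)
    have k1 : x % 1152921504606846976 + z % 1152921504606846976 =
        2 * (y % 1152921504606846976) := by omega
    have k2 : x / 1152921504606846976 + z / 1152921504606846976 =
        2 * (y / 1152921504606846976) := by omega
    have k3 : hd n (x / 1152921504606846976) + hd n (z / 1152921504606846976) =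
        2 * hd n (y / 1152921504606846976) := by omega
    obtain ⟨i1, i2⟩ := ih _ _ _ hx' hy' hz' k2 k3
    set x0 := x % 1152921504606846976 with hx0
    set y0 := y % 1152921504606846976 with hy0
    set z0 := z % 1152921504606846976 with hz0
    have k4 : 2 * y0 ^ 2 ≤ x0 ^ 2 + z0 ^ 2 := by
      zify at k1 ⊢
      nlinarith [sq_nonneg ((x0 : ℤ) - z0)]
    refine ⟨by omega, ?_⟩
    intro he
    have k5 : x0 ^ 2 + z0 ^ 2 = 2 * y0 ^ 2 := by omega
    have k6 : x0 = z0 := by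
      zify at k1 k5 ⊢
      have : ((x0 : ℤ) - z0) ^ 2 = 0 := by
        have h2 : (2 * (y0 : ℤ)) ^ 2 = ((x0 : ℤ) + z0) ^ 2 := by rw [k1]
        linear_combination 2 * k5 + h2
      have := pow_eq_zero_iff (two_ne_zero) |>.1 this
      linarith
    have k7 := i2 (by omega)
    omega

/-- The label of a residue `r` modulo `p`. -/
private def lab (n p r : ℕ) : ℕ := 2 * r / p + 8 * (hd n r + 8 ^ (n + 1) * sd n r)

private theorem lab_lt (n p r : ℕ) (hr : r < p) : lab n p r < 8 ^ (n + 2) * (n * 2 ^ 120 + 1) := by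
  have h1 : 2 * r / p < 2 := Nat.div_lt_of_lt_mul (by omega)
  have h2 := hd_lt n r
  have h3 := sd_le n r
  unfold lab
  have h4 : 8 ^ (n + 1) * sd n r ≤ 8 ^ (n + 1) * (n * 2 ^ 120) := Nat.mul_le_mul_left _ h3
  have h5 : 8 ^ (n + 2) * (n * 2 ^ 120 + 1) = 8 * (8 ^ (n + 1) * (n * 2 ^ 120)) + 64 * 8 ^ n := by
    ring
  rw [h5]
  generalize 8 ^ (n + 1) * sd n r = u at *
  generalize 8 ^ (n + 1) * (n * 2 ^ 120) = v at *
  omega

private theorem lab_key (n p : ℕ) (hn : p ≤ (2 ^ 60) ^ n) (x y z : ℕ) (hx : x < p) (hy : y < p)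
    (hz : z < p) (hd1 : (p : ℤ) ∣ (x : ℤ) + z - 2 * y)
    (hl : lab n p x + lab n p z = 2 * lab n p y) : x = y ∧ z = y := by
  have hp : 0 < p := by omega
  have hx1 : 2 * x / p < 2 := Nat.div_lt_of_lt_mul (by omega)
  have hy1 : 2 * y / p < 2 := Nat.div_lt_of_lt_mul (by omega)
  have hz1 : 2 * z / p < 2 := Nat.div_lt_of_lt_mul (by omega)
  unfold lab at hl
  have ht : 2 * x / p = 2 * y / p ∧ 2 * z / p = 2 * y / p := by
    generalize 2 * x / p = t1 at *
    generalize 2 * y / p = t2 at *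
    generalize 2 * z / p = t3 at *
    generalize hd n x + 8 ^ (n + 1) * sd n x = a1 at *
    generalize hd n y + 8 ^ (n + 1) * sd n y = a2 at *
    generalize hd n z + 8 ^ (n + 1) * sd n z = a3 at *
    interval_cases t1 <;> interval_cases t2 <;> interval_cases t3 <;> omega
  have h2 : (hd n x + 8 ^ (n + 1) * sd n x) + (hd n z + 8 ^ (n + 1) * sd n z) =
      2 * (hd n y + 8 ^ (n + 1) * sd n y) := by omega
  have key : (x : ℤ) + z - 2 * y = 0 := by
    apply Int.eq_zero_of_abs_lt_dvd hd1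
    rw [abs_lt]
    rcases Nat.lt_or_ge (2 * y) p with h | h
    · have e1 : 2 * y / p = 0 := Nat.div_eq_of_lt h
      rw [e1] at ht
      have e2 : 2 * x < p := by
        rcases (Nat.div_eq_zero_iff).1 ht.1 with h | h <;> omega
      have e3 : 2 * z < p := by
        rcases (Nat.div_eq_zero_iff).1 ht.2 with h | h <;> omega
      constructor <;> omega
    · have e1 : 1 ≤ 2 * y / p := (Nat.one_le_div_iff hp).2 h
      have e2 : p ≤ 2 * x := (Nat.one_le_div_iff hp).1 (by omega)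
      have e3 : p ≤ 2 * z := (Nat.one_le_div_iff hp).1 (by omega)
      constructor <;> omega
  have hA := hd_lt n x
  have hB := hd_lt n y
  have hC := hd_lt n z
  have h8 : (8 : ℕ) ^ (n + 1) = 8 * 8 ^ n := by ring
  have h3 : hd n x + hd n z = 2 * hd n y ∧ sd n x + sd n z = 2 * sd n y := by
    have hpos : 0 < 8 ^ n := by positivity
    set w := 8 ^ n with hw
    rw [h8] at h2
    have h4 : (8 * (w : ℤ)) * ((sd n x : ℤ) + sd n z - 2 * sd n y) =
        2 * hd n y - hd n x - hd n z := by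
      zify at h2; linear_combination h2
    have h5 : (sd n x : ℤ) + sd n z - 2 * sd n y = 0 := by
      by_contra hne
      rcases lt_or_gt_of_ne hne with h | h
      · have : (sd n x : ℤ) + sd n z - 2 * sd n y ≤ -1 := by omega
        nlinarith
      · have : 1 ≤ (sd n x : ℤ) + sd n z - 2 * sd n y := by omega
        nlinarith
    rw [h5, mul_zero] at h4
    constructor <;> omega
  have h9 := (label_key n x y z (by omega) (by omega) (by omega) (by omega) h3.1).2 h3.2
  omega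

/-! ## One step of the recursion -/

/-- The squared distance. -/
private def sq (a b : ℤ × ℤ) : ℤ := (a.1 - b.1) ^ 2 + (a.2 - b.2) ^ 2

/-- The distances from every point of `A` to the points of `A` are different. -/
private def Good (A : Finset (ℤ × ℤ)) : Prop :=
  ∀ a ∈ A, ∀ b ∈ A, ∀ c ∈ A, sq a b = sq a c → b = c

/-- `A` is contained in `{0, …, N - 1}²`. -/
private def Box (N : ℕ) (A : Finset (ℤ × ℤ)) : Prop :=
  ∀ P ∈ A, 0 ≤ P.1 ∧ P.1 < N ∧ 0 ≤ P.2 ∧ P.2 < N

private theorem nat_eq_of_dvd {p x y : ℕ} (hx : x < p) (hy : y < p)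
    (h : (p : ℤ) ∣ (x : ℤ) - y) : x = y := by
  have : (x : ℤ) - y = 0 := by
    apply Int.eq_zero_of_abs_lt_dvd h
    rw [abs_lt]; constructor <;> omega
  omega

private theorem step (p q M n K m : ℕ) (hp : p.Prime) (hp2 : p ≠ 2) (hq : q.Prime) (hqp : q < p)
    (c : ℤ) (hc : ¬ (p : ℤ) ∣ c ^ 2 + 1)
    (hshort : ∀ x y : ℤ, |x| ≤ 2 * M → |y| ≤ 2 * M → (p : ℤ) ∣ y - c * x → x = 0 ∧ y = 0)
    (hn : p ≤ (2 ^ 60) ^ n) (hlab : ∀ r < p, 2 * lab n p r < q)
    (a : ℤ) (E : ℤ → Finset (ℤ × ℤ)) (hEbox : ∀ s, Box M (E s)) (hEgood : ∀ s, Good (E s))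
    (hEcl : ∀ s, ∀ P ∈ E s, (q : ℤ) ∣ P.2 - a * P.1 - s) (hEcard : ∀ s, m ≤ K * (E s).card)
    (t : ℤ) :
    ∃ A : Finset (ℤ × ℤ), Box (p * M) A ∧ Good A ∧ (∀ P ∈ A, (p : ℤ) ∣ P.2 - c * P.1 - t) ∧
      p * m ≤ K * A.card := by
  classical
  have hp0 : (0 : ℤ) < p := by exact_mod_cast hp.pos
  have hcop : IsCoprime (p : ℤ) (q : ℤ) :=
    Nat.isCoprime_iff_coprime.2 ((Nat.coprime_primes hp hq).2 hqp.ne')
  obtain ⟨u, v, huv⟩ := hcop
  set r : ℕ → ℤ := fun ρ => (c * ρ + t) % p with hr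
  set s : ℕ → ℤ := fun ρ => u * ((lab n p ρ : ℤ) - (r ρ - a * ρ)) with hs
  have hr0 : ∀ ρ, 0 ≤ r ρ ∧ r ρ < p := fun ρ =>
    ⟨Int.emod_nonneg _ hp0.ne', Int.emod_lt_of_pos _ hp0⟩
  have hrd : ∀ ρ : ℕ, (p : ℤ) ∣ r ρ - c * ρ - t := by
    intro ρ
    have := Int.emod_add_mul_ediv (c * ρ + t) p
    exact ⟨-((c * ρ + t) / p), by simp only [hr]; linear_combination this⟩
  have hsd : ∀ ρ : ℕ, (q : ℤ) ∣ (lab n p ρ : ℤ) - (r ρ - a * ρ) - p * s ρ := by
    intro ρ
    exact ⟨v * ((lab n p ρ : ℤ) - (r ρ - a * ρ)), by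
      simp only [hs]; linear_combination (-((lab n p ρ : ℤ) - (r ρ - a * ρ))) * huv⟩
  set pt : ℕ → ℤ × ℤ → ℤ × ℤ := fun ρ κ => ((ρ : ℤ) + p * κ.1, r ρ + p * κ.2) with hpt
  set A : Finset (ℤ × ℤ) := (Finset.range p).biUnion (fun ρ => (E (s ρ)).image (pt ρ)) with hA
  have hmem : ∀ P ∈ A, ∃ ρ < p, ∃ κ ∈ E (s ρ), P = pt ρ κ := by
    intro P hP
    rw [hA, Finset.mem_biUnion] at hP
    obtain ⟨ρ, h1, h2⟩ := hP
    rw [Finset.mem_image] at h2
    obtain ⟨κ, h3, h4⟩ := h2
    exact ⟨ρ, Finset.mem_range.1 h1, κ, h3, h4.symm⟩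
  have hcl : ∀ ρ κ, (p : ℤ) ∣ (pt ρ κ).2 - c * (pt ρ κ).1 - t := by
    intro ρ κ
    exact dcongr (dvd_add (hrd ρ) (Dvd.intro (κ.2 - c * κ.1) rfl)) (by simp only [hpt]; ring)
  have hLam : ∀ ρ, ∀ κ ∈ E (s ρ), (q : ℤ) ∣ (lab n p ρ : ℤ) - ((pt ρ κ).2 - a * (pt ρ κ).1) := by
    intro ρ κ hκ
    have h1 := hsd ρ
    have h2 := Dvd.dvd.mul_left (hEcl _ κ hκ) (p : ℤ)
    exact dcongr (dvd_sub h1 h2) (by simp only [hpt]; ring)
  have hbox : Box (p * M) A := by
    intro P hP
    obtain ⟨ρ, hρ, κ, hκ, rfl⟩ := hmem P hP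
    obtain ⟨b1, b2, b3, b4⟩ := hEbox _ κ hκ
    have hρ' : (ρ : ℤ) < p := by exact_mod_cast hρ
    have h1 : (p : ℤ) * κ.1 ≤ p * (M - 1) := by
      apply mul_le_mul_of_nonneg_left _ hp0.le; omega
    have h2 : (p : ℤ) * κ.2 ≤ p * (M - 1) := by
      apply mul_le_mul_of_nonneg_left _ hp0.le; omega
    have h3 := mul_nonneg hp0.le b1
    have h4 := mul_nonneg hp0.le b3
    have h5 := hr0 ρ
    simp only [hpt]
    push_cast
    rw [mul_sub, mul_one] at h1 h2
    refine ⟨by omega, by omega, by omega, by omega⟩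
  refine ⟨A, hbox, ?_, ?_, ?_⟩
  · -- Good
    intro P hP Q hQ R hR heq
    have bP := hbox P hP
    have bQ := hbox Q hQ
    have bR := hbox R hR
    obtain ⟨ρ, hρ, κ, hκ, eP⟩ := hmem P hP
    obtain ⟨ρ', hρ', κ', hκ', eQ⟩ := hmem Q hQ
    obtain ⟨ρ'', hρ'', κ'', hκ'', eR⟩ := hmem R hR
    have cP := hcl ρ κ
    have cQ := hcl ρ' κ'
    have cR := hcl ρ'' κ''
    rw [← eP] at cP
    rw [← eQ] at cQ
    rw [← eR] at cR
    push_cast at bP bQ bR
    -- equal classes finish the proof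
    have fin : ρ' = ρ → ρ'' = ρ → Q = R := by
      rintro rfl rfl
      have h1 : sq κ κ' = sq κ κ'' := by
        rw [eP, eQ, eR] at heq
        simp only [sq, hpt] at heq ⊢
        have h2 : (p : ℤ) ^ 2 * ((κ.1 - κ'.1) ^ 2 + (κ.2 - κ'.2) ^ 2) =
            (p : ℤ) ^ 2 * ((κ.1 - κ''.1) ^ 2 + (κ.2 - κ''.2) ^ 2) := by linear_combination heq
        exact mul_left_cancel₀ (by positivity) h2
      have h2 := hEgood _ κ hκ κ' hκ' κ'' hκ'' h1
      rw [eQ, eR, h2]
    have hu : (p : ℤ) ∣ (Q.2 - P.2) - c * (Q.1 - P.1) := dcongr (dvd_sub cQ cP) (by ring)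
    have hw : (p : ℤ) ∣ (R.2 - P.2) - c * (R.1 - P.1) := dcongr (dvd_sub cR cP) (by ring)
    have key := lattice_key p M hp hp2 c hc hshort (Q.1 - P.1) (Q.2 - P.2) (R.1 - P.1)
      (R.2 - P.2) hu hw (by rw [abs_lt]; constructor <;> linarith [bP.1, bP.2.1, bQ.1, bQ.2.1])
      (by rw [abs_lt]; constructor <;> linarith [bP.2.2.1, bP.2.2.2, bQ.2.2.1, bQ.2.2.2])
      (by rw [abs_lt]; constructor <;> linarith [bP.1, bP.2.1, bR.1, bR.2.1])
      (by rw [abs_lt]; constructor <;> linarith [bP.2.2.1, bP.2.2.2, bR.2.2.1, bR.2.2.2])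
      (by simp only [sq] at heq; linear_combination heq)
    rcases key with ⟨k1, k2⟩ | ⟨k1, k2⟩ | ⟨k1, k2⟩
    · exact Prod.ext (by linarith) (by linarith)
    · -- midpoint
      have lP := hLam ρ κ hκ
      have lQ := hLam ρ' κ' hκ'
      have lR := hLam ρ'' κ'' hκ''
      rw [← eP] at lP
      rw [← eQ] at lQ
      rw [← eR] at lR
      have l1 : (q : ℤ) ∣ (lab n p ρ' : ℤ) + lab n p ρ'' - 2 * lab n p ρ := by
        refine dcongr (dvd_sub (dvd_add lQ lR) (Dvd.dvd.mul_left lP 2)) ?_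
        linear_combination (-1 : ℤ) * k2 + a * k1
      have l2 : (lab n p ρ' : ℤ) + lab n p ρ'' - 2 * lab n p ρ = 0 := by
        apply Int.eq_zero_of_abs_lt_dvd l1
        have h1 := hlab ρ hρ
        have h2 := hlab ρ' hρ'
        have h3 := hlab ρ'' hρ''
        rw [abs_lt]; constructor <;> omega
      have l3 : (p : ℤ) ∣ (ρ' : ℤ) + ρ'' - 2 * ρ := by
        have h1 : Q.1 + R.1 = 2 * P.1 := by linarith
        rw [eP, eQ, eR] at h1
        simp only [hpt] at h1
        exact ⟨2 * κ.1 - κ'.1 - κ''.1, by linear_combination h1⟩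
      have l4 := lab_key n p hn ρ' ρ ρ'' hρ' hρ hρ'' (dcongr l3 (by ring)) (by omega)
      exact fin l4.1 l4.2
    · -- one class
      have m1 : ρ' = ρ := by
        apply nat_eq_of_dvd hρ' hρ
        rw [eP, eQ] at k1
        simp only [hpt] at k1
        exact dcongr (dvd_sub k1 (Dvd.intro (κ'.1 - κ.1) rfl)) (by ring)
      have m2 : ρ'' = ρ := by
        apply nat_eq_of_dvd hρ'' hρ
        rw [eP, eR] at k2
        simp only [hpt] at k2
        exact dcongr (dvd_sub k2 (Dvd.intro (κ''.1 - κ.1) rfl)) (by ring)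
      exact fin m1 m2
  · intro P hP
    obtain ⟨ρ, hρ, κ, hκ, rfl⟩ := hmem P hP
    exact hcl ρ κ
  · rw [hA, Finset.card_biUnion, Finset.mul_sum]
    · calc p * m = ∑ ρ ∈ Finset.range p, m := by simp
        _ ≤ ∑ ρ ∈ Finset.range p, K * ((E (s ρ)).image (pt ρ)).card := by
          apply Finset.sum_le_sum
          intro ρ _
          rw [Finset.card_image_of_injective]
          · exact hEcard _
          · intro κ κ' h
            simp only [hpt, Prod.mk.injEq] at h
            obtain ⟨h1, h2⟩ := h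
            exact Prod.ext (mul_left_cancel₀ hp0.ne' (by linarith))
              (mul_left_cancel₀ hp0.ne' (by linarith))
    · intro ρ hρ ρ' hρ' hne
      show Disjoint ((E (s ρ)).image (pt ρ)) ((E (s ρ')).image (pt ρ'))
      rw [Finset.disjoint_left]
      intro P h1 h2
      rw [Finset.mem_image] at h1 h2
      obtain ⟨κ, -, e1⟩ := h1
      obtain ⟨κ', -, e2⟩ := h2
      apply hne
      apply nat_eq_of_dvd (Finset.mem_range.1 (Finset.mem_coe.1 hρ)) (Finset.mem_range.1 (Finset.mem_coe.1 hρ'))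
      have h3 : (ρ : ℤ) + p * κ.1 = ρ' + p * κ'.1 := by
        have := congrArg Prod.fst (e1.trans e2.symm)
        simpa only [hpt] using this
      exact ⟨κ'.1 - κ.1, by linear_combination h3⟩

/-! ## The recursion -/

/-- What is proved by recursion: there are a prime `q` between `√N` and `N` and a slope `a` such
that each class `y - a x ≡ s` modulo `q` contains a large good subset of the box. -/
private def Inv (K N : ℕ) : Prop :=
  ∃ q : ℕ, q.Prime ∧ N ≤ q ^ 2 ∧ q ≤ N ∧ ∃ a : ℤ, ∀ s : ℤ, ∃ E : Finset (ℤ × ℤ),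
    Box N E ∧ Good E ∧ (∀ P ∈ E, (q : ℤ) ∣ P.2 - a * P.1 - s) ∧
      N + Nat.sqrt N ≤ K * E.card

private theorem Box.mono {M N : ℕ} {A : Finset (ℤ × ℤ)} (h : Box M A) (hMN : M ≤ N) :
    Box N A := by
  intro P hP
  obtain ⟨h1, h2, h3, h4⟩ := h P hP
  have : (M : ℤ) ≤ N := by exact_mod_cast hMN
  exact ⟨h1, by linarith, h3, by linarith⟩

private theorem inv_base (K N : ℕ) (hN : 2 ≤ N) (hK : 2 * N ≤ K) : Inv K N := by
  obtain ⟨q, hq, h1, h2⟩ := Nat.exists_prime_lt_and_le_two_mul (N / 2) (by omega)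
  refine ⟨q, hq, ?_, by omega, 0, fun s => ⟨{(0, s % q)}, ?_, ?_, ?_, ?_⟩⟩
  · have := hq.two_le
    nlinarith [(by omega : N + 1 ≤ 2 * q)]
  · intro P hP
    rw [Finset.mem_singleton] at hP
    subst hP
    have hq0 : (0 : ℤ) < q := by exact_mod_cast hq.pos
    have h3 := Int.emod_nonneg s hq0.ne'
    have h4 := Int.emod_lt_of_pos s hq0
    simp only
    refine ⟨le_refl _, by omega, h3, by omega⟩
  · intro a _ b hb c hc _
    rw [Finset.mem_singleton] at hb hc
    rw [hb, hc]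
  · intro P hP
    rw [Finset.mem_singleton] at hP
    subst hP
    have := Int.emod_add_mul_ediv s q
    exact ⟨-(s / q), by simp only; linear_combination this⟩
  · rw [Finset.card_singleton, mul_one]
    have h3 : Nat.sqrt N ≤ N := Nat.sqrt_le_self N
    omega

/-- The arithmetic of one step. -/
private theorem arith (N : ℕ) (hN : (2 ^ 60) ^ 63 ≤ N) : ∃ n p : ℕ, p.Prime ∧ p ≤ N ∧
    64 ≤ n ∧ p ≤ (2 ^ 60) ^ n ∧ 2 ^ (12 * n) ≤ N / p ∧ (4 * (N / p) + 1) ^ 2 + 2 < p := by
  have hN0 : N ≠ 0 := (lt_of_lt_of_le (pow_pos (Nat.two_pow_pos 60) 63) hN).ne'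
  set j := Nat.log (2 ^ 60) N with hj
  have hb : 1 < 2 ^ 60 := by norm_num
  have h1 : (2 ^ 60) ^ j ≤ N := Nat.pow_log_le_self _ hN0
  have h2 : N < (2 ^ 60) ^ (j + 1) := Nat.lt_pow_succ_log_self hb N
  have h63 : 63 ≤ j := Nat.le_log_of_pow_le hb hN
  clear hN
  have hj1 : 2 ^ (60 * j) ≤ N := by rw [pow_mul]; exact h1
  -- the interval of the prime
  set X := N / 2 ^ (12 * j + 14) with hX
  have hXl : 2 ^ (48 * j - 14) ≤ X := by
    rw [hX, Nat.le_div_iff_mul_le (by positivity), ← pow_add]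
    have : 48 * j - 14 + (12 * j + 14) = 60 * j := by omega
    rw [this]; exact hj1
  have hX0 : X ≠ 0 := by
    have : 0 < 2 ^ (48 * j - 14) := by positivity
    omega
  obtain ⟨p, hp, hp1, hp2⟩ := Nat.exists_prime_lt_and_le_two_mul X hX0
  have hpN : p * 2 ^ (12 * j + 13) ≤ N := by
    calc p * 2 ^ (12 * j + 13) ≤ 2 * X * 2 ^ (12 * j + 13) := Nat.mul_le_mul_right _ hp2
      _ = X * 2 ^ (12 * j + 14) := by ring
      _ ≤ N := Nat.div_mul_le_self _ _
  have hp3 : N < p * 2 ^ (12 * j + 14) := by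
    calc N < (X + 1) * 2 ^ (12 * j + 14) := by
          rw [hX, mul_comm]; exact Nat.lt_mul_div_succ N (by positivity)
      _ ≤ p * 2 ^ (12 * j + 14) := Nat.mul_le_mul_right _ hp1
  have hM1 : 2 ^ (12 * j + 13) ≤ N / p := by
    rw [Nat.le_div_iff_mul_le hp.pos, mul_comm]; exact hpN
  have hM2 : N / p < 2 ^ (12 * j + 14) := by
    rw [Nat.div_lt_iff_lt_mul hp.pos, mul_comm]; exact hp3
  have hple : p ≤ N := by
    have : 1 ≤ 2 ^ (12 * j + 13) := Nat.one_le_two_pow
    calc p = p * 1 := (mul_one p).symm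
      _ ≤ p * 2 ^ (12 * j + 13) := Nat.mul_le_mul_left _ this
      _ ≤ N := hpN
  refine ⟨j + 1, p, hp, hple, by omega, hple.trans h2.le, ?_, ?_⟩
  · refine le_trans (Nat.pow_le_pow_right (by norm_num) (by omega)) hM1
  · have h5 : 4 * (N / p) + 1 ≤ 2 ^ (12 * j + 16) := by
      have : 2 ^ (12 * j + 16) = 4 * 2 ^ (12 * j + 14) := by ring
      omega
    have h6 : (4 * (N / p) + 1) ^ 2 ≤ 2 ^ (24 * j + 32) := by
      calc (4 * (N / p) + 1) ^ 2 ≤ (2 ^ (12 * j + 16)) ^ 2 := Nat.pow_le_pow_left h5 2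
        _ = 2 ^ (24 * j + 32) := by rw [← pow_mul]; congr 1; ring
    have h7 : 2 ^ (24 * j + 33) ≤ 2 ^ (48 * j - 14) :=
      Nat.pow_le_pow_right (by norm_num) (by omega)
    have h8 : 2 ^ (24 * j + 33) = 2 * 2 ^ (24 * j + 32) := by ring
    have h9 : 2 ≤ 2 ^ (24 * j + 32) := by
      calc 2 = 2 ^ 1 := by norm_num
        _ ≤ 2 ^ (24 * j + 32) := Nat.pow_le_pow_right (by norm_num) (by omega)
    omega

private theorem aux_w (n w : ℕ) (hw : 1 ≤ w) : n * w + 1 ≤ 2 ^ n * w * 2 := by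
  have h3 : n < 2 ^ n := Nat.lt_two_pow_self
  have h5 : (n + 1) * w ≤ 2 ^ n * w := Nat.mul_le_mul_right _ h3
  rw [add_mul, one_mul] at h5
  omega

private theorem lab_small (n p q M r : ℕ) (hn : 64 ≤ n) (hM : 2 ^ (12 * n) ≤ M)
    (hMq : M ≤ q ^ 2) (hr : r < p) : 2 * lab n p r < q := by
  by_contra hcon
  rw [not_lt] at hcon
  have h1 := lab_lt n p r hr
  have h2 : n * 2 ^ 120 + 1 ≤ 2 ^ (n + 121) := by
    have h4 : 2 ^ (n + 121) = 2 ^ n * 2 ^ 120 * 2 := by ring
    rw [h4]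
    exact aux_w n _ Nat.one_le_two_pow
  have h3 : 8 ^ (n + 2) * (n * 2 ^ 120 + 1) ≤ 2 ^ (4 * n + 127) := by
    calc 8 ^ (n + 2) * (n * 2 ^ 120 + 1) ≤ 8 ^ (n + 2) * 2 ^ (n + 121) :=
          Nat.mul_le_mul_left _ h2
      _ = 2 ^ (3 * (n + 2)) * 2 ^ (n + 121) := by
          rw [pow_mul]; norm_num
      _ = 2 ^ (4 * n + 127) := by rw [← pow_add]; congr 1; ring
  have h4 : 2 * lab n p r < 2 ^ (4 * n + 128) := by
    have : 2 ^ (4 * n + 128) = 2 * 2 ^ (4 * n + 127) := by ring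
    omega
  have h5 : q < 2 ^ (4 * n + 128) := lt_of_le_of_lt hcon h4
  have h6 : q ^ 2 < 2 ^ (8 * n + 256) := by
    calc q ^ 2 < (2 ^ (4 * n + 128)) ^ 2 := Nat.pow_lt_pow_left h5 (by norm_num)
      _ = 2 ^ (8 * n + 256) := by rw [← pow_mul]; congr 1; ring
  have h7 : 2 ^ (8 * n + 256) ≤ 2 ^ (12 * n) := Nat.pow_le_pow_right (by norm_num) (by omega)
  omega

private theorem inv_step (K N : ℕ) (hN : (2 ^ 60) ^ 63 ≤ N)
    (ih : ∀ M, M < N → 2 ≤ M → Inv K M) : Inv K N := by
  obtain ⟨n, p, hp, hpN, hn, hpn, hM, hpM⟩ := arith N hN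
  clear hN
  set M := N / p with hMdef
  have hMp : M + 1 < p := by nlinarith
  have hM4 : 4 ≤ M := by
    calc 4 = 2 ^ 2 := by norm_num
      _ ≤ 2 ^ (12 * n) := Nat.pow_le_pow_right (by norm_num) (by omega)
      _ ≤ M := hM
  obtain ⟨q, hq, hq1, hq2, a, hE⟩ := ih M (by omega) (by omega)
  choose E hEbox hEgood hEcl hEcard using hE
  obtain ⟨c, hc, hshort⟩ := exists_slope p M hp hpM
  have hNlt : N < p * (M + 1) := Nat.lt_mul_div_succ N hp.pos
  have hNp : N ≤ p ^ 2 := by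
    calc N ≤ p * (M + 1) := hNlt.le
      _ ≤ p * p := Nat.mul_le_mul_left _ hMp.le
      _ = p ^ 2 := by ring
  refine ⟨p, hp, hNp, hpN, c, fun t => ?_⟩
  obtain ⟨A, hA1, hA2, hA3, hA4⟩ := step p q M n K (M + Nat.sqrt M) hp
    (by omega) hq (by omega) c hc hshort hpn
    (fun r hr => lab_small n p q M r hn hM hq1 hr) a E hEbox hEgood hEcl hEcard t
  refine ⟨A, hA1.mono ?_, hA2, hA3, le_trans ?_ hA4⟩
  · exact Nat.mul_div_le N p
  · have h1 : 2 ≤ Nat.sqrt M := Nat.le_sqrt.2 (by omega)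
    have h2 : Nat.sqrt N ≤ p := by
      calc Nat.sqrt N ≤ Nat.sqrt (p ^ 2) := Nat.sqrt_le_sqrt hNp
        _ = p := Nat.sqrt_eq' p
    calc N + Nat.sqrt N ≤ p * (M + 1) + p := by omega
      _ = p * (M + 2) := by ring
      _ ≤ p * (M + Nat.sqrt M) := Nat.mul_le_mul_left _ (by omega)

private theorem inv_all (K N : ℕ) (hK : 2 * (2 ^ 60) ^ 63 ≤ K) (hN : 2 ≤ N) : Inv K N := by
  induction N using Nat.strong_induction_on with
  | _ N ih =>
    by_cases h : (2 ^ 60) ^ 63 ≤ N
    · exact inv_step K N h fun M hM hM2 => ih M hM hM2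
    · exact inv_base K N hN (le_trans (Nat.mul_le_mul_left 2 (not_le.1 h).le) hK)

/-! ## The theorem -/

private theorem aux_K (b e : ℕ) : 2 * (2 ^ b) ^ e ≤ 2 ^ (b * e + 1) := by
  rw [← pow_mul, pow_succ, mul_comm]

private theorem card_le_f {N : ℕ} {A : Finset (ℤ × ℤ)} (hA : A ⊆ grid N)
    (hf : IsoscelesFree A) : A.card ≤ f N := by
  classical
  unfold f
  exact Finset.le_sup (f := Finset.card)
    (Finset.mem_filter.2 ⟨Finset.mem_powerset.2 hA, hf⟩)

private theorem eucl_eq (a b c : ℤ × ℤ) (h : eucl a b = eucl a c) : sq a b = sq a c := by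
  unfold eucl at h
  rw [Real.sqrt_inj (by positivity) (by positivity)] at h
  unfold sq
  exact_mod_cast h

/-- **Linear lower bound.** The largest subset of the grid `{1, …, N}²` which contains no isosceles
triangle (degenerate ones included) has at least `2 ^ (-3781) * N` points. -/
theorem result : ∀ N : ℕ, (N : ℝ) / 2 ^ 3781 ≤ f N := by
  intro N
  have h3781 : (3781 : ℕ) = 60 * 63 + 1 := by norm_num
  rw [h3781, div_le_iff₀ (by positivity)]
  suffices h : N ≤ f N * 2 ^ (60 * 63 + 1) by exact_mod_cast h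
  rcases Nat.lt_or_ge N 2 with h2 | h2
  · rcases Nat.eq_zero_or_pos N with h0 | h0
    · rw [h0]; exact Nat.zero_le _
    · have hN1 : N = 1 := by omega
      subst hN1
      have h1 : ({((1 : ℤ), (1 : ℤ))} : Finset (ℤ × ℤ)).card ≤ f 1 := by
        apply card_le_f
        · intro x hx
          rw [Finset.mem_singleton] at hx
          subst hx
          simp [grid]
        · intro a ha b hb c hc hab
          rw [Finset.mem_singleton] at ha hb
          exact absurd (ha.trans hb.symm) hab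
      rw [Finset.card_singleton] at h1
      exact Nat.mul_le_mul h1 Nat.one_le_two_pow
  · have hK : 2 * (2 ^ 60) ^ 63 ≤ 2 ^ (60 * 63 + 1) := aux_K 60 63
    obtain ⟨q, -, -, -, a, hE⟩ := inv_all (2 ^ (60 * 63 + 1)) N hK h2
    obtain ⟨E, hE1, hE2, -, hE3⟩ := hE 0
    have hinj : Function.Injective (fun P : ℤ × ℤ => (P.1 + 1, P.2 + 1)) := by
      intro P Q h
      simp only [Prod.mk.injEq, add_left_inj] at h
      exact Prod.ext h.1 h.2
    have h1 : (E.image (fun P : ℤ × ℤ => (P.1 + 1, P.2 + 1))).card ≤ f N := by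
      apply card_le_f
      · intro x hx
        obtain ⟨P, hP, rfl⟩ := Finset.mem_image.1 hx
        obtain ⟨b1, b2, b3, b4⟩ := hE1 P hP
        rw [grid, Finset.mem_product, Finset.mem_Icc, Finset.mem_Icc]
        simp only
        omega
      · intro a0 ha0 b0 hb0 c0 hc0 hab hac hbc h
        obtain ⟨a, ha, rfl⟩ := Finset.mem_image.1 ha0
        obtain ⟨b, hb, rfl⟩ := Finset.mem_image.1 hb0
        obtain ⟨c, hc, rfl⟩ := Finset.mem_image.1 hc0
        apply hbc
        have h3 := eucl_eq _ _ _ h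
        have h4 : b = c := by
          apply hE2 a ha b hb c hc
          simp only [sq] at h3 ⊢
          linear_combination h3
        rw [h4]
    rw [Finset.card_image_of_injective _ hinj] at h1
    calc N ≤ N + Nat.sqrt N := Nat.le_add_right _ _
      _ ≤ 2 ^ (60 * 63 + 1) * E.card := hE3
      _ ≤ 2 ^ (60 * 63 + 1) * f N := Nat.mul_le_mul_left _ h1
      _ = f N * 2 ^ (60 * 63 + 1) := mul_comm _ _

end Pool.Agent.Results.MP_fcf645_co.LinearLower
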