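import Pool.Agent.Lib.H29I.G5

/-!
# Isosceles triangles in the grid: power saving

`f N`, the largest size of a subset of `{1, …, N}²` without isosceles triangles, is at most
`N ^ (2 - 10⁻⁶)` for all large `N`, and the same bound holds if only non-degenerate isosceles
triangles are forbidden. The proof is described in `Pool/Agent/Lib/H29I/PROOF.md`.
-/

namespace Pool.Agent.Results.MP_fcf645_co.PowerSaving

open Finset

/-- The grid `{1, …, N}²`. -/
noncomputable def grid (N : ℕ) : Finset (ℤ × ℤ) :=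
  Finset.Icc 1 (N : ℤ) ×ˢ Finset.Icc 1 (N : ℤ)

/-- The Euclidean distance of two points with integer coordinates. -/
noncomputable def eucl (a b : ℤ × ℤ) : ℝ :=
  Real.sqrt (((a.1 : ℝ) - b.1) ^ 2 + ((a.2 : ℝ) - b.2) ^ 2)

/-- `a`, `b`, `c` lie on a line. -/
def Collinear3 (a b c : ℤ × ℤ) : Prop :=
  (b.1 - a.1) * (c.2 - a.2) = (b.2 - a.2) * (c.1 - a.1)

/-- `A` contains no isosceles triangle (degenerate ones included): there are no pairwise different
points `a`, `b`, `c` of `A` with `|a - b| = |a - c|`. -/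
def IsoscelesFree (A : Finset (ℤ × ℤ)) : Prop :=
  ∀ a ∈ A, ∀ b ∈ A, ∀ c ∈ A, a ≠ b → a ≠ c → b ≠ c → eucl a b ≠ eucl a c

/-- `A` contains no non-degenerate isosceles triangle: there are no three points `a`, `b`, `c` of
`A`, not on a line, with `|a - b| = |a - c|`. -/
def NondegIsoscelesFree (A : Finset (ℤ × ℤ)) : Prop :=
  ∀ a ∈ A, ∀ b ∈ A, ∀ c ∈ A, ¬ Collinear3 a b c → eucl a b ≠ eucl a c

open Classical in
/-- The largest size of a subset of the grid which contains no isosceles triangle. -/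
noncomputable def f (N : ℕ) : ℕ :=
  ((grid N).powerset.filter (fun A => IsoscelesFree A)).sup Finset.card

open Classical in
/-- The largest size of a subset of the grid which contains no non-degenerate isosceles
triangle. -/
noncomputable def g (N : ℕ) : ℕ :=
  ((grid N).powerset.filter (fun A => NondegIsoscelesFree A)).sup Finset.card

/-! ## Proof -/

theorem nondeg_of_free {A : Finset (ℤ × ℤ)} (h : IsoscelesFree A) : NondegIsoscelesFree A := by
  intro a ha b hb c hc hcol
  apply h a ha b hb c hc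
  · rintro rfl; exact hcol (by simp [Collinear3])
  · rintro rfl; exact hcol (by simp [Collinear3])
  · rintro rfl; exact hcol (by simp [Collinear3, mul_comm])

/-- The embedding into the Gaussian integers. -/
def toG : (ℤ × ℤ) ↪ H29I.G := ⟨fun p => ⟨p.1, p.2⟩, fun p q h => by
  rw [Zsqrtd.ext_iff] at h; exact Prod.ext h.1 h.2⟩

theorem triFree_of_nondeg {A : Finset (ℤ × ℤ)} (h : NondegIsoscelesFree A) :
    H29I.TriFree (A.map toG) := by
  intro x hx b hb c hc hdet hnrm
  rw [Finset.mem_map] at hx hb hc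
  obtain ⟨x, hx, rfl⟩ := hx
  obtain ⟨b, hb, rfl⟩ := hb
  obtain ⟨c, hc, rfl⟩ := hc
  refine h x hx b hb c hc ?_ ?_
  · intro hcol
    apply hdet
    simp only [Collinear3] at hcol
    simp only [H29I.det, toG, Function.Embedding.coeFn_mk, Zsqrtd.re_sub, Zsqrtd.im_sub]
    linarith
  · have h1 : (H29I.nrm (toG b - toG x) : ℤ) = H29I.nrm (toG c - toG x) := by
      exact_mod_cast hnrm
    rw [H29I.nrm_eq, H29I.nrm_eq] at h1
    simp only [toG, Function.Embedding.coeFn_mk, Zsqrtd.re_sub, Zsqrtd.im_sub] at h1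
    unfold eucl
    congr 1
    have h2 : ((b.1 : ℝ) - x.1) ^ 2 + ((b.2 : ℝ) - x.2) ^ 2 =
        ((c.1 : ℝ) - x.1) ^ 2 + ((c.2 : ℝ) - x.2) ^ 2 := by exact_mod_cast h1
    linarith

theorem map_subset_box {N : ℕ} {A : Finset (ℤ × ℤ)} (h : A ⊆ grid N) :
    A.map toG ⊆ H29I.box N := by
  intro x hx
  rw [Finset.mem_map] at hx
  obtain ⟨p, hp, rfl⟩ := hx
  have := h hp
  simp only [grid, Finset.mem_product, Finset.mem_Icc] at this
  rw [H29I.mem_box]
  simp only [toG, Function.Embedding.coeFn_mk]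
  constructor <;> rw [abs_le] <;> constructor <;> omega

/-- For all large `N`, a subset of `{1, …, N}²` without isosceles triangles (even: without
non-degenerate isosceles triangles) has at most `N ^ (2 - 10⁻⁶)` points. -/
theorem result : ∃ N₀ : ℕ, ∀ N : ℕ, N₀ ≤ N →
    f N ≤ g N ∧ (g N : ℝ) ≤ (N : ℝ) ^ ((2 : ℝ) - 1 / 10 ^ 6) := by
  classical
  obtain ⟨N₀, hN₀⟩ := H29I.main_N
  refine ⟨N₀, fun N hN => ⟨?_, ?_⟩⟩
  · unfold f g
    apply Finset.sup_mono
    intro A hA
    rw [Finset.mem_filter] at hA ⊢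
    exact ⟨hA.1, nondeg_of_free hA.2⟩
  · have hne : ((grid N).powerset.filter (fun A => NondegIsoscelesFree A)).Nonempty := by
      refine ⟨∅, Finset.mem_filter.mpr ⟨Finset.empty_mem_powerset _, ?_⟩⟩
      intro a ha; simp at ha
    obtain ⟨A, hA, hAf⟩ := Finset.exists_mem_eq_sup _ hne Finset.card
    have hg : g N = A.card := by unfold g; exact hAf
    rw [hg]
    rw [Finset.mem_filter, Finset.mem_powerset] at hA
    have := hN₀ N hN (A.map toG) (map_subset_box hA.1) (triFree_of_nondeg hA.2)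
    rwa [Finset.card_map] at this

end Pool.Agent.Results.MP_fcf645_co.PowerSaving
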